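import Pool.Agent.H60.CM.Targets

/-!
# Stable surfaces of constant mean curvature spanning a circle: rules of calculus
-/

set_option autoImplicit false

open Set Function MeasureTheory Filter Topology
open scoped Manifold ContDiff Matrix

namespace Pool.Agent.H60.CM

section

variable {S : Type} [TopologicalSpace S] [ChartedSpace (EuclideanHalfSpace 2) S]
variable {F G : Type} [NormedAddCommGroup F] [NormedSpace ℝ F] [NormedAddCommGroup G]
  [NormedSpace ℝ G]

/-- differentiable at a point -/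
abbrev MD (f : S → F) (p : S) : Prop := MDifferentiableAt (𝓡∂ 2) 𝓘(ℝ, F) f p

theorem dd_eq {f : S → F} {p : S} (h : MD f p) (i : Fin 2) :
    dd f p i = fderivWithin ℝ (f ∘ (extChartAt (𝓡∂ 2) p).symm) (range (𝓡∂ 2))
      (extChartAt (𝓡∂ 2) p p) (ee i) := by
  unfold dd
  rw [h.mfderiv]
  rfl

theorem dd_comp {f : S → F} {Φ : F → G} {p : S} (hf : MD f p) (hΦ : DifferentiableAt ℝ Φ (f p))
    (i : Fin 2) : dd (fun q => Φ (f q)) p i = fderiv ℝ Φ (f p) (dd f p i) := by
  have h1 : mfderiv (𝓡∂ 2) 𝓘(ℝ, G) (Φ ∘ f) p =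
      (mfderiv 𝓘(ℝ, F) 𝓘(ℝ, G) Φ (f p)).comp (mfderiv (𝓡∂ 2) 𝓘(ℝ, F) f p) :=
    mfderiv_comp p hΦ.mdifferentiableAt hf
  unfold dd
  have h2 : (fun q => Φ (f q)) = Φ ∘ f := rfl
  rw [h2, h1, mfderiv_eq_fderiv]
  rfl

theorem dd_const (c : F) (p : S) (i : Fin 2) : dd (fun _ : S => c) p i = 0 := by
  unfold dd
  rw [mfderiv_const]
  rfl

theorem dd_congr {f g : S → F} {p : S} (h : f =ᶠ[𝓝 p] g) (i : Fin 2) : dd f p i = dd g p i := by
  unfold dd
  rw [h.mfderiv_eq]
  rfl

theorem MD.comp_left {f : S → F} {Φ : F → G} {p : S} (hf : MD f p)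
    (hΦ : DifferentiableAt ℝ Φ (f p)) : MD (fun q => Φ (f q)) p :=
  MDifferentiableAt.comp (I' := 𝓘(ℝ, F)) p hΦ.mdifferentiableAt hf

theorem MD.continuousAt {f : S → F} {p : S} (hf : MD f p) : ContinuousAt f p :=
  MDifferentiableAt.continuousAt hf

theorem MD.diffWithin {f : S → F} {p : S} (hf : MD f p) :
    DifferentiableWithinAt ℝ (f ∘ (extChartAt (𝓡∂ 2) p).symm) (range (𝓡∂ 2))
      (extChartAt (𝓡∂ 2) p p) :=
  hf.differentiableWithinAt_writtenInExtChartAt

theorem md_of {f : S → F} {p : S} (h1 : ContinuousAt f p)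
    (h2 : DifferentiableWithinAt ℝ (f ∘ (extChartAt (𝓡∂ 2) p).symm) (range (𝓡∂ 2))
      (extChartAt (𝓡∂ 2) p p)) : MD f p :=
  (mdifferentiableAt_iff _ _).2 ⟨h1, h2⟩

theorem uniq (p : S) : UniqueDiffWithinAt ℝ (range (𝓡∂ 2)) (extChartAt (𝓡∂ 2) p p) :=
  (𝓡∂ 2).uniqueDiffOn _ (mem_range_self _)

theorem dd_add {f g : S → F} {p : S} (hf : MD f p) (hg : MD g p) (i : Fin 2) :
    dd (fun q => f q + g q) p i = dd f p i + dd g p i := by
  have h : MD (fun q => f q + g q) p := md_of (hf.continuousAt.add hg.continuousAt)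
    (hf.diffWithin.add hg.diffWithin)
  rw [dd_eq h, dd_eq hf, dd_eq hg]
  exact congrArg (fun L => L (ee i)) (fderivWithin_add (uniq p) hf.diffWithin hg.diffWithin)

theorem dd_mul {f g : S → ℝ} {p : S} (hf : MD f p) (hg : MD g p) (i : Fin 2) :
    dd (fun q => f q * g q) p i = f p * dd g p i + g p * dd f p i := by
  have h : MD (fun q => f q * g q) p := md_of (hf.continuousAt.mul hg.continuousAt)
    (hf.diffWithin.mul hg.diffWithin)
  rw [dd_eq h, dd_eq hf, dd_eq hg]
  have h1 := congrArg (fun L => L (ee i))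
    (fderivWithin_mul (uniq p) hf.diffWithin hg.diffWithin)
  have h2 : (extChartAt (𝓡∂ 2) p).symm (extChartAt (𝓡∂ 2) p p) = p := extChartAt_to_inv p
  simp only [comp_apply, h2] at h1
  exact h1

theorem MD.add {f g : S → F} {p : S} (hf : MD f p) (hg : MD g p) : MD (fun q => f q + g q) p :=
  md_of (hf.continuousAt.add hg.continuousAt) (hf.diffWithin.add hg.diffWithin)

theorem MD.mul {f g : S → ℝ} {p : S} (hf : MD f p) (hg : MD g p) : MD (fun q => f q * g q) p :=
  md_of (hf.continuousAt.mul hg.continuousAt) (hf.diffWithin.mul hg.diffWithin)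

theorem MD.smul {f : S → ℝ} {g : S → F} {p : S} (hf : MD f p) (hg : MD g p) :
    MD (fun q => f q • g q) p :=
  md_of (hf.continuousAt.smul hg.continuousAt) (hf.diffWithin.smul hg.diffWithin)

theorem md_const (c : F) (p : S) : MD (fun _ : S => c) p := mdifferentiableAt_const

theorem MD.coord {f : S → V3} {p : S} (hf : MD f p) (k : Fin 3) : MD (fun q => f q k) p :=
  MD.comp_left (Φ := fun y : V3 => y k) hf (by fun_prop)

theorem dd_coord {f : S → V3} {p : S} (hf : MD f p) (k : Fin 3) (i : Fin 2) :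
    dd (fun q => f q k) p i = dd f p i k := by
  rw [dd_comp (Φ := fun y : V3 => y k) hf (by fun_prop)]
  have h : (fun y : V3 => y k) = (ContinuousLinearMap.proj k : V3 →L[ℝ] ℝ) := rfl
  rw [h, ContinuousLinearMap.fderiv]
  rfl

theorem dd_const_mul {f : S → ℝ} {p : S} (hf : MD f p) (c : ℝ) (i : Fin 2) :
    dd (fun q => c * f q) p i = c * dd f p i := by
  rw [dd_mul (md_const c p) hf, dd_const, mul_zero, add_zero]

theorem dd_neg {f : S → ℝ} {p : S} (hf : MD f p) (i : Fin 2) :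
    dd (fun q => -f q) p i = -dd f p i := by
  have h : (fun q => -f q) = fun q => (-1) * f q := by
    funext q
    ring
  rw [h, dd_const_mul hf]
  ring

theorem dd_sub {f g : S → ℝ} {p : S} (hf : MD f p) (hg : MD g p) (i : Fin 2) :
    dd (fun q => f q - g q) p i = dd f p i - dd g p i := by
  have h : (fun q => f q - g q) = fun q => f q + (-1) * g q := by
    funext q
    ring
  rw [h, dd_add hf ((md_const (-1) p).mul hg), dd_const_mul hg]
  ring

theorem MD.sub {f g : S → ℝ} {p : S} (hf : MD f p) (hg : MD g p) : MD (fun q => f q - g q) p := by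
  have h : (fun q => f q - g q) = fun q => f q + (-1) * g q := by
    funext q
    ring
  rw [h]
  exact hf.add ((md_const (-1) p).mul hg)

/-- the derivative of a Killing function -/
theorem dd_kf {x N : S → V3} {p : S} (hx : MD x p) (hN : MD N p) (a b : V3) (i : Fin 2) :
    dd (kf x N a b) p i = (b ⨯₃ dd x p i) ⬝ᵥ N p + (a + b ⨯₃ x p) ⬝ᵥ dd N p i := by
  have h : kf x N a b = fun q => (a 0 + (b 1 * x q 2 + (-b 2) * x q 1)) * N q 0 +
      ((a 1 + (b 2 * x q 0 + (-b 0) * x q 2)) * N q 1 +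
        (a 2 + (b 0 * x q 1 + (-b 1) * x q 0)) * N q 2) := by
    funext q
    simp only [kf, Matrix.vec3_dotProduct, cross_apply, Pi.add_apply, Matrix.cons_val_zero,
      Matrix.cons_val_one, Matrix.cons_val]
    ring
  have x0 := hx.coord 0
  have x1 := hx.coord 1
  have x2 := hx.coord 2
  have n0 := hN.coord 0
  have n1 := hN.coord 1
  have n2 := hN.coord 2
  have m : ∀ (c : ℝ) (k : Fin 3), MD (fun q => c * x q k) p := fun c k =>
    (md_const c p).mul (hx.coord k)
  rw [h, dd_add (((md_const _ p).add ((m _ 2).add (m _ 1))).mul n0)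
      ((((md_const _ p).add ((m _ 0).add (m _ 2))).mul n1).add
        (((md_const _ p).add ((m _ 1).add (m _ 0))).mul n2)),
    dd_add (((md_const _ p).add ((m _ 0).add (m _ 2))).mul n1)
      (((md_const _ p).add ((m _ 1).add (m _ 0))).mul n2),
    dd_mul ((md_const _ p).add ((m _ 2).add (m _ 1))) n0,
    dd_mul ((md_const _ p).add ((m _ 0).add (m _ 2))) n1,
    dd_mul ((md_const _ p).add ((m _ 1).add (m _ 0))) n2,
    dd_add (md_const _ p) ((m _ 2).add (m _ 1)), dd_add (md_const _ p) ((m _ 0).add (m _ 2)),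
    dd_add (md_const _ p) ((m _ 1).add (m _ 0)), dd_add (m _ 2) (m _ 1), dd_add (m _ 0) (m _ 2),
    dd_add (m _ 1) (m _ 0), dd_const, dd_const, dd_const, dd_const_mul x0, dd_const_mul x1,
    dd_const_mul x2, dd_const_mul x0, dd_const_mul x1, dd_const_mul x2, dd_coord hx, dd_coord hx,
    dd_coord hx, dd_coord hN, dd_coord hN, dd_coord hN]
  simp only [Matrix.vec3_dotProduct, cross_apply, Pi.add_apply, Matrix.cons_val_zero,
      Matrix.cons_val_one, Matrix.cons_val]
  ring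

/-! ### algebra of `gr` and `br` -/

theorem bil_comm (a0 a1 : V3) (f0 f1 g0 g1 : ℝ) : bil a0 a1 f0 f1 g0 g1 = bil a0 a1 g0 g1 f0 f1 := by
  unfold bil
  rw [dotProduct_comm]

theorem gr_comm (x : S → V3) (f g : S → ℝ) (p : S) : gr x f g p = gr x g f p := bil_comm _ _ _ _ _ _

theorem bil_add (a0 a1 : V3) (f0 f1 g0 g1 h0 h1 : ℝ) :
    bil a0 a1 f0 f1 (g0 + h0) (g1 + h1) = bil a0 a1 f0 f1 g0 g1 + bil a0 a1 f0 f1 h0 h1 := by
  unfold bil
  rw [← add_div, ← dotProduct_add]
  congr 2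
  rw [add_smul, add_smul]
  abel

theorem bil_smul (a0 a1 : V3) (f0 f1 g0 g1 c : ℝ) :
    bil a0 a1 f0 f1 (c * g0) (c * g1) = c * bil a0 a1 f0 f1 g0 g1 := by
  unfold bil
  rw [mul_smul, mul_smul, ← smul_sub, dotProduct_smul, smul_eq_mul, mul_div_assoc]

theorem gr_add {x : S → V3} {f g h : S → ℝ} {p : S} (hg : MD g p) (hh : MD h p) :
    gr x f (fun q => g q + h q) p = gr x f g p + gr x f h p := by
  unfold gr
  rw [dd_add hg hh, dd_add hg hh, bil_add]

theorem gr_mul {x : S → V3} {f g h : S → ℝ} {p : S} (hg : MD g p) (hh : MD h p) :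
    gr x f (fun q => g q * h q) p = g p * gr x f h p + h p * gr x f g p := by
  unfold gr
  rw [dd_mul hg hh, dd_mul hg hh, bil_add, bil_smul, bil_smul]

theorem gr_const_mul {x : S → V3} {f g : S → ℝ} {p : S} (hg : MD g p) (c : ℝ) :
    gr x f (fun q => c * g q) p = c * gr x f g p := by
  unfold gr
  rw [dd_const_mul hg, dd_const_mul hg, bil_smul]

theorem gr_comp {x : S → V3} {f g : S → ℝ} {p : S} (hg : MD g p) {φ : ℝ → ℝ}
    (hφ : DifferentiableAt ℝ φ (g p)) :
    gr x f (fun q => φ (g q)) p = deriv φ (g p) * gr x f g p := by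
  have h : ∀ i, dd (fun q => φ (g q)) p i = deriv φ (g p) * dd g p i := by
    intro i
    rw [dd_comp hg hφ, fderiv_eq_smul_deriv, smul_eq_mul, mul_comm]
  unfold gr
  rw [h, h, bil_smul]

theorem brk_add (a0 a1 n : V3) (f0 f1 g0 g1 h0 h1 : ℝ) :
    brk a0 a1 n (f0 + h0) (f1 + h1) g0 g1 = brk a0 a1 n f0 f1 g0 g1 + brk a0 a1 n h0 h1 g0 g1 := by
  unfold brk
  rw [← add_div]
  congr 1
  ring

theorem brk_smul (a0 a1 n : V3) (f0 f1 g0 g1 c : ℝ) :
    brk a0 a1 n (c * f0) (c * f1) g0 g1 = c * brk a0 a1 n f0 f1 g0 g1 := by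
  unfold brk
  rw [← mul_div_assoc]
  congr 1
  ring

theorem br_add {x N : S → V3} {f g h : S → ℝ} {p : S} (hg : MD g p) (hh : MD h p) :
    br x N (fun q => g q + h q) f p = br x N g f p + br x N h f p := by
  unfold br
  rw [dd_add hg hh, dd_add hg hh, brk_add]

theorem br_mul {x N : S → V3} {f g h : S → ℝ} {p : S} (hg : MD g p) (hh : MD h p) :
    br x N (fun q => g q * h q) f p = g p * br x N h f p + h p * br x N g f p := by
  unfold br
  rw [dd_mul hg hh, dd_mul hg hh, brk_add, brk_smul, brk_smul]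

theorem br_comp {x N : S → V3} {f g : S → ℝ} {p : S} (hg : MD g p) {φ : ℝ → ℝ}
    (hφ : DifferentiableAt ℝ φ (g p)) :
    br x N (fun q => φ (g q)) f p = deriv φ (g p) * br x N g f p := by
  have h : ∀ i, dd (fun q => φ (g q)) p i = deriv φ (g p) * dd g p i := by
    intro i
    rw [dd_comp hg hφ, fderiv_eq_smul_deriv, smul_eq_mul, mul_comm]
  unfold br
  rw [h, h, brk_smul]

theorem gr_congr {x : S → V3} {f g g' : S → ℝ} {p : S} (h : g =ᶠ[𝓝 p] g') :
    gr x f g p = gr x f g' p := by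
  unfold gr
  rw [dd_congr h, dd_congr h]

theorem br_congr {x N : S → V3} {f g g' : S → ℝ} {p : S} (h : g =ᶠ[𝓝 p] g') :
    br x N g f p = br x N g' f p := by
  unfold br
  rw [dd_congr h, dd_congr h]

/-- outside the support -/
theorem evz {g : S → ℝ} {p : S} (h : p ∉ tsupport g) : g =ᶠ[𝓝 p] fun _ => 0 :=
  notMem_tsupport_iff_eventuallyEq.1 h

theorem gr_zero {x : S → V3} {f g : S → ℝ} {p : S} (h : p ∉ tsupport g) : gr x f g p = 0 := by
  rw [gr_congr (evz h)]
  unfold gr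
  rw [dd_const, dd_const]
  simp [bil]

theorem br_zero {x N : S → V3} {f g : S → ℝ} {p : S} (h : p ∉ tsupport g) :
    br x N g f p = 0 := by
  rw [br_congr (evz h)]
  unfold br
  rw [dd_const, dd_const]
  simp [brk]

end

/-! ### the data -/

namespace Dat

variable (D : Dat)
variable {F G : Type} [NormedAddCommGroup F] [NormedSpace ℝ F] [NormedAddCommGroup G]
  [NormedSpace ℝ G]

theorem Sm.md {f : D.S → F} (h : D.Sm f) (p : D.S) : MD f p :=
  (ContMDiff.mdifferentiable h (by simp)) p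

theorem Sm.cont {f : D.S → F} (h : D.Sm f) : Continuous f := ContMDiff.continuous h

theorem Sm.comp_left {f : D.S → F} (h : D.Sm f) {Φ : F → G} (hΦ : ContDiff ℝ ∞ Φ) :
    D.Sm (fun q => Φ (f q)) := (hΦ.contMDiff).comp h

theorem Sm.add {f g : D.S → F} (hf : D.Sm f) (hg : D.Sm g) : D.Sm (fun q => f q + g q) :=
  ContMDiff.add hf hg

theorem Sm.mul {f g : D.S → ℝ} (hf : D.Sm f) (hg : D.Sm g) : D.Sm (fun q => f q * g q) :=
  ContMDiff.mul hf hg

theorem Sm.const (c : F) : D.Sm (fun _ : D.S => c) := contMDiff_const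

theorem Sm.coord {f : D.S → V3} (hf : D.Sm f) (k : Fin 3) : D.Sm (fun q => f q k) :=
  Sm.comp_left D hf (Φ := fun y : V3 => y k) (by fun_prop)

theorem Sm.const_mul {f : D.S → ℝ} (hf : D.Sm f) (c : ℝ) : D.Sm (fun q => c * f q) :=
  Sm.mul D (Sm.const D c) hf

theorem Sm.neg {f : D.S → ℝ} (hf : D.Sm f) : D.Sm (fun q => -f q) := by
  have h := Sm.const_mul D hf (-1)
  simpa using h

theorem Sm.sub {f g : D.S → ℝ} (hf : D.Sm f) (hg : D.Sm g) : D.Sm (fun q => f q - g q) := by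
  have h := Sm.add D hf (Sm.neg D hg)
  simpa [sub_eq_add_neg] using h

theorem smx : D.Sm D.x := D.cmc.x_smooth

theorem smN : D.Sm D.N := D.cmc.N_smooth

theorem Sm.kf {f g : D.S → V3} (hf : D.Sm f) (hg : D.Sm g) (a b : V3) :
    D.Sm (Pool.Agent.H60.CM.kf f g a b) := by
  have h : Pool.Agent.H60.CM.kf f g a b = fun q => (a 0 + (b 1 * f q 2 + (-b 2) * f q 1)) * g q 0 +
      ((a 1 + (b 2 * f q 0 + (-b 0) * f q 2)) * g q 1 +
        (a 2 + (b 0 * f q 1 + (-b 1) * f q 0)) * g q 2) := by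
    funext q
    simp only [Pool.Agent.H60.CM.kf, Matrix.vec3_dotProduct, cross_apply, Pi.add_apply,
      Matrix.cons_val_zero, Matrix.cons_val_one, Matrix.cons_val]
    ring
  have m : ∀ (c : ℝ) (k : Fin 3), D.Sm (fun q => c * f q k) := fun c k =>
    Sm.const_mul D (Sm.coord D hf k) c
  rw [h]
  exact Sm.add D (Sm.mul D (Sm.add D (Sm.const D _) (Sm.add D (m _ _) (m _ _)))
    (Sm.coord D hg 0)) (Sm.add D (Sm.mul D (Sm.add D (Sm.const D _) (Sm.add D (m _ _) (m _ _)))
    (Sm.coord D hg 1)) (Sm.mul D (Sm.add D (Sm.const D _) (Sm.add D (m _ _) (m _ _)))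
    (Sm.coord D hg 2)))

theorem smkf (a b : V3) : D.Sm (Pool.Agent.H60.CM.kf D.x D.N a b) := Sm.kf D D.smx D.smN a b

theorem smu : D.Sm D.u := D.smkf 0 e3

theorem int_open : IsOpen D.int := (𝓡∂ 2).isOpen_interior (n := ∞) (by simp)

theorem bd_closed : IsClosed D.bd := (𝓡∂ 2).isClosed_boundary (n := ∞) (by simp)

theorem int_or_bd (p : D.S) : p ∈ D.int ∨ p ∈ D.bd := (𝓡∂ 2).isInteriorPoint_or_isBoundaryPoint p

theorem not_int {p : D.S} : p ∉ D.int ↔ p ∈ D.bd := by
  constructor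
  · intro h
    exact (D.int_or_bd p).resolve_left h
  · intro h h2
    exact Set.disjoint_left.1 (𝓡∂ 2).disjoint_interior_boundary h2 h

theorem cont_int {f : D.S → ℝ} (h : Continuous f) : Integrable f D.μ := by
  obtain ⟨C, hC⟩ := (isCompact_univ (X := D.S)).bddAbove_image (f := fun p => ‖f p‖)
    h.norm.continuousOn
  refine Integrable.of_bound h.aestronglyMeasurable C (Eventually.of_forall fun p => ?_)
  exact hC ⟨p, mem_univ p, rfl⟩

end Dat

theorem Tst.md {S : Type} [TopologicalSpace S] [ChartedSpace (EuclideanHalfSpace 2) S]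
    {U : Set S} {v : S → ℝ} (h : Tst U v) (p : S) : MD v p :=
  (ContMDiff.mdifferentiable h.1 (by simp)) p

theorem Tst.add {D : Dat} {U : Set D.S} {v w : D.S → ℝ} (hv : Tst U v) (hw : Tst U w) :
    Tst U (fun q => v q + w q) :=
  ⟨Dat.Sm.add D hv.1 hw.1, (tsupport_add v w).trans (union_subset hv.2 hw.2)⟩

theorem Tst.mul_left {D : Dat} {U : Set D.S} {v w : D.S → ℝ} (hv : D.Sm v) (hw : Tst U w) :
    Tst U (fun q => v q * w q) :=
  ⟨Dat.Sm.mul D hv hw.1, (tsupport_mul_subset_right).trans hw.2⟩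

theorem Tst.mul_right {D : Dat} {U : Set D.S} {v w : D.S → ℝ} (hv : Tst U v) (hw : D.Sm w) :
    Tst U (fun q => v q * w q) :=
  ⟨Dat.Sm.mul D hv.1 hw, (tsupport_mul_subset_left).trans hv.2⟩

theorem Tst.mono {S : Type} [TopologicalSpace S] [ChartedSpace (EuclideanHalfSpace 2) S]
    {U V : Set S} {v : S → ℝ} (h : Tst U v) (hUV : U ⊆ V) : Tst V v := ⟨h.1, h.2.trans hUV⟩

end Pool.Agent.H60.CM
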