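import Pool.Agent.H60.CM.Basic

/-!
# Stable surfaces of constant mean curvature spanning a circle: assembly
-/

set_option autoImplicit false

open Set Function MeasureTheory Filter Topology
open scoped Manifold ContDiff Matrix

namespace Pool.Agent.H60.CM

/-- the conclusion: planar disc or spherical cap -/
def Umb (S : Type) (x : S → V3) (H r : ℝ) : Prop :=
  Injective x ∧ ((H = 0 ∧ range x = Kdi r) ∨
    (H ≠ 0 ∧ ∃ c : ℝ, range x = Kca c (1 / |H|) 1 ∨ range x = Kca c (1 / |H|) (-1)))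

/-- the theorem -/
def T_FIN : Prop :=
  ∀ (S : Type) [TopologicalSpace S] [ChartedSpace (EuclideanHalfSpace 2) S]
    [IsManifold (𝓡∂ 2) ∞ S] [T2Space S] [CompactSpace S] [ConnectedSpace S] [MeasurableSpace S]
    [BorelSpace S] (x N : S → V3) (H r : ℝ) (μ : Measure S) [IsFiniteMeasure μ],
    Cmc x N H r μ → Stable x N μ →
    ∀ τ : Diffeomorph (𝓡∂ 2) (𝓡∂ 2) S S ∞, (∀ p, τ (τ p) = p) → (∀ p, x (τ p) = mir (x p)) →
    ((∃ A : Set S, Half τ A) ∨ ∀ p, x p 1 = 0 → τ p = p) →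
    ((∃ P Q : ℝ, (P ≠ 0 ∨ Q ≠ 0) ∧
      ∀ p ∈ (𝓡∂ 2).boundary S, 0 ≤ P * (N p ⬝ᵥ x p) + Q * N p 2) ∨
    ∃ (ρ : Diffeomorph (𝓡∂ 2) (𝓡∂ 2) S S ∞) (α : ℝ), Real.cos α ≠ 1 ∧
      ∀ p, x (ρ p) = rot α (x p)) → Umb S x H r

theorem half_swap {S : Type} [TopologicalSpace S] [ChartedSpace (EuclideanHalfSpace 2) S]
    (τ : Diffeomorph (𝓡∂ 2) (𝓡∂ 2) S S ∞) (hτ : ∀ p, τ (τ p) = p) (A : Set S) (h : Half τ A) :
    Half τ (τ ⁻¹' A) := by
  refine ⟨h.isOpen.preimage τ.continuous, ?_, ?_⟩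
  · rw [Set.disjoint_left]
    intro p hp hp2
    have h2 : p ∈ A := by
      have h3 : τ (τ p) ∈ A := hp2
      rwa [hτ] at h3
    exact Set.disjoint_left.1 h.disj h2 hp
  · intro p
    rw [h.cover p]
    constructor
    · rintro (h1 | h1)
      · right
        show τ (τ p) ∈ A
        rwa [hτ]
      · exact Or.inl h1
    · rintro (h1 | h1)
      · exact Or.inr h1
      · left
        have h3 : τ (τ p) ∈ A := h1
        rwa [hτ] at h3

theorem half_of {S : Type} [TopologicalSpace S] [ChartedSpace (EuclideanHalfSpace 2) S]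
    (τ : Diffeomorph (𝓡∂ 2) (𝓡∂ 2) S S ∞) (x : S → V3) (hx : Continuous x)
    (hm : ∀ p, x (τ p) = mir (x p)) (h : ∀ p, x p 1 = 0 → τ p = p) :
    Half τ {p | 0 < x p 1} := by
  have h1 : ∀ p, x (τ p) 1 = -x p 1 := fun p => by
    rw [hm]
    simp [mir]
  have hc : Continuous fun p => x p 1 := (continuous_apply 1).comp hx
  refine ⟨isOpen_lt continuous_const hc, ?_, ?_⟩
  · rw [Set.disjoint_left]
    intro p hp hp2
    have h2 : 0 < x p 1 := hp
    have h3 : 0 < x (τ p) 1 := hp2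
    rw [h1] at h3
    linarith
  · intro p
    show τ p ≠ p ↔ 0 < x p 1 ∨ 0 < x (τ p) 1
    rw [h1]
    constructor
    · intro h2
      have h3 : x p 1 ≠ 0 := fun h4 => h2 (h p h4)
      rcases lt_or_gt_of_ne h3 with h4 | h4
      · right
        linarith
      · exact Or.inl h4
    · intro h2 h3
      have h4 := h1 p
      rw [h3] at h4
      rcases h2 with h5 | h5 <;> linarith

theorem fin (hHCR : T_HCR) (hCNN : T_CNN) (hCS1 : T_CS1) (hCS2 : T_CS2) (hFIC : T_FIC)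
    (hFZR : T_FZR) (hZCO : T_ZCO) (hEND : T_END) (hUPL : T_UPL) (hUSP : T_USP) : T_FIN := by
  intro S _ _ _ _ _ _ _ _ x N H r μ _ hc hs τ hτ hm hA hcase
  obtain ⟨A, hA⟩ : ∃ A : Set S, Half τ A := by
    rcases hA with h | h
    · exact h
    · exact ⟨_, half_of τ x hc.x_smooth.continuous hm h⟩
  let D : Dat := { S := S, x := x, N := N, H := H, r := r, μ := μ, cmc := hc }
  -- the half which contains the half circle
  obtain ⟨B, hB, hpos⟩ : ∃ B : Set S, Half τ B ∧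
      ∀ p ∈ (𝓡∂ 2).boundary S, 0 < x p 1 → p ∈ B := by
    rcases hHCR D τ A hτ hm hA with h | h
    · exact ⟨A, hA, h⟩
    · exact ⟨τ ⁻¹' A, half_swap τ hτ A hA, h⟩
  let Y : Sy := { D with
    τ := τ
    inv := hτ
    mirr := hm
    A := B
    half := hB
    conn := hCNN D τ B hτ hm hB
    pos := hpos }
  have hu : ∀ p, Y.u p = 0 := by
    rcases hcase with ⟨P, Q, hPQ, h⟩ | ⟨ρ, α, hα, h⟩
    · exact hCS1 Y hs P Q hPQ h
    · exact hCS2 Y hs ρ α hα h
  obtain ⟨c, hc1⟩ := hFIC Y hu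
  have hc0 : c = 0 := hFZR D c hu hc1
  obtain ⟨z, hz⟩ := hZCO Y hu (fun p => by rw [hc1 p, hc0])
  rcases hEND Y z hz with ⟨h0, h1⟩ | ⟨h0, h1⟩
  · have h2 := hUPL D h1
    exact ⟨h2.1, Or.inl ⟨h0, h2.2⟩⟩
  · have hH : 0 < 1 / |H| := by
      have : (H : ℝ) ≠ 0 := h0
      positivity
    have h2 := hUSP D (z / H) (1 / |H|) hH (fun p => by
      have h3 := h1 p
      show x p 0 ^ 2 + x p 1 ^ 2 + (x p 2 - z / H) ^ 2 = (1 / |H|) ^ 2
      have h4 : (1 / |H|) ^ 2 = (1 / H) ^ 2 := by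
        rw [div_pow, div_pow, sq_abs]
      rw [h4]
      exact h3)
    exact ⟨h2.1, Or.inr ⟨h0, z / H, h2.2⟩⟩

end Pool.Agent.H60.CM
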