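import Pool.Agent.H91.CM.ARE
import Pool.Agent.H75.CM.BAR
import Pool.Agent.H77.CM.BCV
import Pool.Agent.H23.CM.BDF
import Pool.Agent.H91.CM.BNZ
import Pool.Agent.H58.CM.BPC
import Pool.Agent.H11.CM.BSG
import Pool.Agent.H38.CM.CMP
import Pool.Agent.H23.CM.CNN
import Pool.Agent.H48.CM.CONC
import Pool.Agent.H75.CM.CS1
import Pool.Agent.H27.CM.CS2
import Pool.Agent.H16.CM.DNI
import Pool.Agent.H34.CM.ELL
import Pool.Agent.H99.CM.END
import Pool.Agent.H13.CM.FDZ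
import Pool.Agent.H27.CM.FIC
import Pool.Agent.H48.CM.FIX
import Pool.Agent.H21.CM.FLX
import Pool.Agent.H26.CM.FZR
import Pool.Agent.H77.CM.HCR
import Pool.Agent.H74.CM.HES
import Pool.Agent.H47.CM.HOP
import Pool.Agent.H68.CM.HZR
import Pool.Agent.H14.CMS.INV
import Pool.Agent.H35.CM.JAC
import Pool.Agent.H93.CM.LC1
import Pool.Agent.H73.CM.LC2
import Pool.Agent.H96.CM.LCS
import Pool.Agent.H10.CM.LOW
import Pool.Agent.H98.CM.LPP
import Pool.Agent.H10.CM.LPQ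
import Pool.Agent.H30.CM.ODD
import Pool.Agent.H55.CM.PAT
import Pool.Agent.H74.CM.PB1
import Pool.Agent.H90.CM.PB2
import Pool.Agent.H58.CM.PBR
import Pool.Agent.H44.CMS.PDE
import Pool.Agent.H11.CM.PDF
import Pool.Agent.H70.CM.PFR
import Pool.Agent.H37.CM.PGR
import Pool.Agent.H42.CM.PHI
import Pool.Agent.H37.CM.POS
import Pool.Agent.H42.CM.REG
import Pool.Agent.H27.CM.SGN
import Pool.Agent.H30.CM.STA
import Pool.Agent.H59.CM.STR
import Pool.Agent.H63.CM.SYM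
import Pool.Agent.H39.CM.TAU
import Pool.Agent.H58.CM.TDI
import Pool.Agent.H14.CMS.UBD
import Pool.Agent.H76.CM.UCK
import Pool.Agent.H23.CM.UCV
import Pool.Agent.H93.CM.UDK
import Pool.Agent.H14.CMS.UIN
import Pool.Agent.H78.CM.ULI
import Pool.Agent.H68.CM.UMB
import Pool.Agent.H69.CM.UPL
import Pool.Agent.H38.CM.USP
import Pool.Agent.H90.CM.WJE
import Pool.Agent.H48.CM.ZCO
import Pool.Agent.H52.CM.CUT
import Pool.Agent.H60.CM.Asm

/-!
# Stable surfaces of constant mean curvature spanning a circle: composition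
-/

set_option autoImplicit false

namespace Pool.Agent.H60.CM.All

open Pool.Agent.H60.CM

theorem inv : T_INV := Pool.Agent.H14.CMS.pf_INV
theorem nng : T_NNG := Pool.Agent.H14.CMS.pf_NNG
theorem str : T_STR := Pool.Agent.H59.CM.pf_STR
theorem jac : T_JAC := Pool.Agent.H35.CM.pf_JAC
theorem fdz : T_FDZ := Pool.Agent.H13.CM.pf_FDZ
theorem hzr : T_HZR := Pool.Agent.H68.CM.pf_HZR
theorem umb : T_UMB := Pool.Agent.H68.CM.pf_UMB
theorem con : T_CON := Pool.Agent.H48.CM.pf_CON inv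
theorem pat : T_PAT := Pool.Agent.H55.CM.pf_PAT
theorem pdf : T_PDF := Pool.Agent.H11.CM.pf_PDF
theorem pgr : T_PGR := Pool.Agent.H37.CM.pf_PGR inv pdf
theorem are : T_ARE := Pool.Agent.H91.CM.pf_ARE
theorem pfr : T_PFR := Pool.Agent.H70.CM.pf_PFR pdf
theorem sym : T_SYM := Pool.Agent.H63.CM.pf_SYM pat pdf pfr
theorem pb1 : T_PB1 := Pool.Agent.H74.CM.PB1.pf_PB1
theorem pb2 : T_PB2 := Pool.Agent.H90.CM.pf_PB2 pb1 pgr are con pdf
theorem pbr : T_PBR := Pool.Agent.H58.CM.pf_PBR pb2 pat con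
theorem wje : T_WJE := Pool.Agent.H90.CM.pf_WJE str jac sym pbr con
theorem pos : T_POS := Pool.Agent.H37.CM.pf_POS pat are
theorem lcs : T_LCS := Pool.Agent.H96.CM.pf_LCS pat pdf
theorem dni : T_DNI := Pool.Agent.H16.CM.pf_DNI
theorem bcv : T_BCV := Pool.Agent.H77.CM.pf_BCV
theorem bnz : T_BNZ := Pool.Agent.H91.CM.pf_BNZ bcv
theorem bdf : T_BDF := Pool.Agent.H23.CM.pf_BDF bcv
theorem bpc : T_BPC := Pool.Agent.H58.CM.pf_BPC
theorem hcr : T_HCR := Pool.Agent.H77.CM.pf_HCR bpc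
theorem sgn : T_SGN := Pool.Agent.H27.CM.pf_SGN bnz bpc
theorem tau : T_TAU := Pool.Agent.H39.CM.pf_TAU pat are
theorem tdi : T_TDI := Pool.Agent.H58.CM.pf_TDI inv sgn
theorem sta : T_STA := Pool.Agent.H30.CM.pf_STA tau tdi con
theorem odd : T_ODD := Pool.Agent.H30.CM.pf_ODD sgn
theorem phi : T_PHI := Pool.Agent.H42.CM.pf_PHI
theorem low : T_LOW := Pool.Agent.H10.CM.pf_LOW pat pdf pgr are nng con
theorem hes : T_HES := Pool.Agent.H74.CM.HES.pf_HES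
theorem bar : T_BAR := Pool.Agent.H75.CM.pf_BAR
theorem cmp : T_CMP := Pool.Agent.H38.CM.pf_CMP hes
theorem hop : T_HOP := Pool.Agent.H47.CM.pf_HOP bar cmp
theorem pde : T_PDE := Pool.Agent.H44.CMS.pf_PDE pfr str jac pdf pgr
theorem ell : T_ELL := Pool.Agent.H34.CM.pf_ELL pdf
theorem reg : T_REG := Pool.Agent.H42.CM.pf_REG pat pdf pde ell hop nng
theorem fixx : T_FIX := Pool.Agent.H48.CM.pf_FIX dni sgn
theorem lc1 : T_LC1 := Pool.Agent.H93.CM.pf_LC1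
theorem uli : T_ULI := Pool.Agent.H78.CM.pf_ULI
theorem lc2 : T_LC2 := Pool.Agent.H73.CM.pf_LC2 uli sgn bcv bnz
theorem cnn : T_CNN := Pool.Agent.H23.CM.pf_CNN lc1 lc2 fixx
theorem bsg : T_BSG := Pool.Agent.H11.CM.pf_BSG bnz bpc
theorem flx : T_FLX := Pool.Agent.H21.CM.pf_FLX pbr con pos dni bdf bpc
theorem fzr : T_FZR := Pool.Agent.H26.CM.pf_FZR flx bnz bpc
theorem fic : T_FIC := Pool.Agent.H27.CM.pf_FIC fdz sym lcs fixx sgn
theorem zco : T_ZCO := Pool.Agent.H48.CM.pf_ZCO hzr umb sym lcs fixx sgn dni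
theorem endd : T_END := Pool.Agent.H99.CM.pf_END lcs fixx
theorem uin : T_UIN := Pool.Agent.H14.CMS.pf_UIN pat pdf
theorem ubd : T_UBD := Pool.Agent.H14.CMS.pf_UBD uli dni
theorem uck : T_UCK := Pool.Agent.H76.CM.pf_UCK
theorem udk : T_UDK := Pool.Agent.H93.CM.pf_UDK
theorem ucv : T_UCV := Pool.Agent.H23.CM.pf_UCV bpc
theorem upl : T_UPL := Pool.Agent.H69.CM.pf_UPL udk uin ubd ucv
theorem usp : T_USP := Pool.Agent.H38.CM.pf_USP uck uin ubd ucv bdf bpc dni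

theorem cut : T_CUT := Pool.Agent.H52.CM.pf_CUT
theorem lpq : T_LPQ := Pool.Agent.H10.CM.pf_LPQ wje sta cut odd con nng
theorem lpp : T_LPP := Pool.Agent.H98.CM.pf_LPP phi lpq low reg
theorem cs1 : T_CS1 := Pool.Agent.H75.CM.pf_CS1 lpp bsg bnz dni odd
theorem cs2 : T_CS2 :=
  Pool.Agent.H27.CM.CS.pf_CS2 lpp sgn bnz dni odd bpc

theorem all : T_FIN :=
  fin hcr cnn cs1 cs2 fic fzr zco endd upl usp

end Pool.Agent.H60.CM.All
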