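import Mathlib

/-!
# Stable surfaces of constant mean curvature spanning a circle (`MP_d9d403_gt`): definitions
-/

set_option autoImplicit false

open Set Function MeasureTheory Filter Topology
open scoped Manifold ContDiff Matrix

namespace Pool.Agent.H60.CM

/-- the parameter plane -/
abbrev E2 : Type := EuclideanSpace ℝ (Fin 2)

/-- the space; lengths and angles are those of the dot product -/
abbrev V3 : Type := Fin 3 → ℝ

/-- the coordinate vectors of the parameter plane -/
noncomputable def ee (i : Fin 2) : E2 := EuclideanSpace.single i (1 : ℝ)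

/-! ### pointwise formulas -/

/-- the scalar product of the gradients with components `f`, `g` in the basis `a0`, `a1` -/
noncomputable def bil (a0 a1 : V3) (f0 f1 g0 g1 : ℝ) : ℝ :=
  ((f0 • a1 - f1 • a0) ⬝ᵥ (g0 • a1 - g1 • a0)) / ((a0 ⨯₃ a1) ⬝ᵥ (a0 ⨯₃ a1))

/-- the oriented bracket -/
noncomputable def brk (a0 a1 n : V3) (f0 f1 g0 g1 : ℝ) : ℝ :=
  (f0 * g1 - f1 * g0) / ((a0 ⨯₃ a1) ⬝ᵥ n)

/-! ### the surface -/

section

variable {S : Type} [TopologicalSpace S] [ChartedSpace (EuclideanHalfSpace 2) S]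

/-- the derivative of `f` at `p` in the coordinate direction `i` (of the preferred chart) -/
noncomputable def dd {F : Type} [NormedAddCommGroup F] [NormedSpace ℝ F] (f : S → F) (p : S)
    (i : Fin 2) : F :=
  mfderiv (𝓡∂ 2) 𝓘(ℝ, F) f p (ee i)

/-- the scalar product of the gradients of `f` and `g` in the metric induced by `x` -/
noncomputable def gr (x : S → V3) (f g : S → ℝ) (p : S) : ℝ :=
  bil (dd x p 0) (dd x p 1) (dd f p 0) (dd f p 1) (dd g p 0) (dd g p 1)

/-- the oriented bracket of two functions: `df ∧ dg = (br f g) dA` -/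
noncomputable def br (x N : S → V3) (f g : S → ℝ) (p : S) : ℝ :=
  brk (dd x p 0) (dd x p 1) (N p) (dd f p 0) (dd f p 1) (dd g p 0) (dd g p 1)

/-- the square of the norm of the second fundamental form, `|dN|^2` -/
noncomputable def sf (x N : S → V3) (p : S) : ℝ :=
  ∑ k : Fin 3, gr x (fun s => N s k) (fun s => N s k) p

/-- the partial derivatives of a function on the parameter plane -/
noncomputable def pd {F : Type} [NormedAddCommGroup F] [NormedSpace ℝ F] (f : E2 → F) (y : E2)
    (i : Fin 2) : F := fderiv ℝ f y (ee i)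

/-- the density of the area -/
noncomputable def aw (X : E2 → V3) (y : E2) : ℝ :=
  Real.sqrt ((pd X y 0 ⨯₃ pd X y 1) ⬝ᵥ (pd X y 0 ⨯₃ pd X y 1))

/-- `μ` is the area measure of the immersion `x`: for every injective smooth parametrization `ψ`
of an open piece of the interior on which `x ∘ ψ` is an immersion, and every measurable `B`, the
area of `ψ(B)` is the integral of `|X_0 × X_1|` over `B` -/
def IsArea [MeasurableSpace S] (x : S → V3) (μ : Measure S) : Prop :=
  ∀ (O : Set E2) (ψ : E2 → S), IsOpen O → ContMDiffOn 𝓘(ℝ, E2) (𝓡∂ 2) ∞ ψ O → InjOn ψ O →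
    (∀ y ∈ O, pd (x ∘ ψ) y 0 ⨯₃ pd (x ∘ ψ) y 1 ≠ 0) → ∀ B ⊆ O, MeasurableSet B →
    μ (ψ '' B) = ∫⁻ y in B, ENNReal.ofReal (aw (x ∘ ψ) y)

/-- the circle of radius `r` about the origin in the plane of the first two coordinates -/
def circ (r : ℝ) : Set V3 := {y | y 2 = 0 ∧ y ⬝ᵥ y = r ^ 2}

/-- `x : S → ℝ³` is an immersed surface of constant mean curvature `H` with unit normal `N` and
area measure `μ`, spanning the circle of radius `r` -/
structure Cmc [MeasurableSpace S] (x N : S → V3) (H r : ℝ) (μ : Measure S) : Prop where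
  r_pos : 0 < r
  x_smooth : ContMDiff (𝓡∂ 2) 𝓘(ℝ, V3) ∞ x
  N_smooth : ContMDiff (𝓡∂ 2) 𝓘(ℝ, V3) ∞ N
  imm : ∀ p, dd x p 0 ⨯₃ dd x p 1 ≠ 0
  unit : ∀ p, N p ⬝ᵥ N p = 1
  normal : ∀ p i, N p ⬝ᵥ dd x p i = 0
  cmc : ∀ p, dd N p 0 ⨯₃ dd x p 1 + dd x p 0 ⨯₃ dd N p 1 = (-2 * H) • (dd x p 0 ⨯₃ dd x p 1)
  circle : BijOn x ((𝓡∂ 2).boundary S) (circ r)
  area : IsArea x μ

/-- the smooth functions with compact support in the open set `U` -/
def Tst (U : Set S) (v : S → ℝ) : Prop :=
  ContMDiff (𝓡∂ 2) 𝓘(ℝ, ℝ) ∞ v ∧ tsupport v ⊆ U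

/-- the second variation of the area -/
noncomputable def QQ [MeasurableSpace S] (x N : S → V3) (μ : Measure S) (v : S → ℝ) : ℝ :=
  ∫ p, (gr x v v p - sf x N p * v p ^ 2) ∂μ

/-- stability (for volume preserving variations which fix a neighbourhood of the boundary) -/
def Stable [MeasurableSpace S] (x N : S → V3) (μ : Measure S) : Prop :=
  ∀ v : S → ℝ, Tst ((𝓡∂ 2).interior S) v → ∫ p, v p ∂μ = 0 → 0 ≤ QQ x N μ v

/-! ### symmetry -/

/-- the reflection of `ℝ³` in the plane of the first and the third coordinate -/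
def mir (y : V3) : V3 := ![y 0, -y 1, y 2]

/-- the rotation of `ℝ³` about the third axis -/
noncomputable def rot (α : ℝ) (y : V3) : V3 :=
  ![Real.cos α * y 0 - Real.sin α * y 1, Real.sin α * y 0 + Real.cos α * y 1, y 2]

/-- the open set `A` is a half of the surface for the symmetry `τ` -/
structure Half (τ : S → S) (A : Set S) : Prop where
  isOpen : IsOpen A
  disj : Disjoint A (τ ⁻¹' A)
  cover : ∀ p, τ p ≠ p ↔ p ∈ A ∨ τ p ∈ A

/-- the Killing function `⟨a + b × x, N⟩` -/
def kf (x N : S → V3) (a b : V3) (p : S) : ℝ := (a + b ⨯₃ x p) ⬝ᵥ N p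

end

end Pool.Agent.H60.CM
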