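import Pool.Agent.H60.CM.Defs

/-!
# Stable surfaces of constant mean curvature spanning a circle: the words of the theorem
-/

set_option autoImplicit false

open Set Function MeasureTheory
open scoped Manifold ContDiff Matrix

namespace Pool.Agent.H60.CM

/-- the closed disc bounded by the circle of radius `r` -/
def planarDisc (r : ℝ) : Set V3 := {y | y 2 = 0 ∧ y ⬝ᵥ y ≤ r ^ 2}

/-- the part of the sphere of radius `ρ` about `(0, 0, c)` on one side of the plane of the
circle (`σ = 1`: above, `σ = -1`: below) -/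
def sphCap (c ρ σ : ℝ) : Set V3 :=
  {y | y 0 ^ 2 + y 1 ^ 2 + (y 2 - c) ^ 2 = ρ ^ 2 ∧ 0 ≤ σ * y 2}

/-- the surface is an embedded planar disc or an embedded spherical cap of radius `1 / |H|` -/
def DiscOrCap {S : Type} (x : S → V3) (H r : ℝ) : Prop :=
  Injective x ∧ ((H = 0 ∧ range x = planarDisc r) ∨
    (H ≠ 0 ∧ ∃ c σ : ℝ, (σ = 1 ∨ σ = -1) ∧ range x = sphCap c (1 / |H|) σ))

variable {S : Type} [TopologicalSpace S] [ChartedSpace (EuclideanHalfSpace 2) S]

/-- a smooth map to the space -/
def SmoothMap (f : S → V3) : Prop := ContMDiff (𝓡∂ 2) 𝓘(ℝ, V3) ∞ f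

/-- an immersion -/
def Immersed (x : S → V3) : Prop := ∀ p, dd x p 0 ⨯₃ dd x p 1 ≠ 0

/-- `N` is a unit normal of `x` -/
def UnitNormal (x N : S → V3) : Prop := ∀ p, N p ⬝ᵥ N p = 1 ∧ ∀ i, N p ⬝ᵥ dd x p i = 0

/-- the mean curvature is the constant `H`: `dN ∧ dx = -2 H dA` -/
def MeanCurvature (x N : S → V3) (H : ℝ) : Prop :=
  ∀ p, dd N p 0 ⨯₃ dd x p 1 + dd x p 0 ⨯₃ dd N p 1 = (-2 * H) • (dd x p 0 ⨯₃ dd x p 1)

/-- the boundary is mapped bijectively onto the circle of radius `r` -/
def SpansCircle (x : S → V3) (r : ℝ) : Prop :=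
  0 < r ∧ BijOn x ((𝓡∂ 2).boundary S) (circ r)

/-- `x : S → ℝ³` is an immersed surface of constant mean curvature `H` with unit normal `N` and
area measure `μ`, spanning the circle of radius `r` -/
structure CmcSurface [MeasurableSpace S] (x N : S → V3) (H r : ℝ) (μ : Measure S) : Prop where
  smooth : SmoothMap x
  smoothN : SmoothMap N
  immersed : Immersed x
  normal : UnitNormal x N
  curvature : MeanCurvature x N H
  spans : SpansCircle x r
  area : IsArea x μ

theorem CmcSurface.cmc [MeasurableSpace S] {x N : S → V3} {H r : ℝ} {μ : Measure S}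
    (h : CmcSurface x N H r μ) : Cmc x N H r μ where
  r_pos := h.spans.1
  x_smooth := h.smooth
  N_smooth := h.smoothN
  imm := h.immersed
  unit := fun p => (h.normal p).1
  normal := fun p i => (h.normal p).2 i
  cmc := h.curvature
  circle := h.spans.2
  area := h.area

/-- `τ` is a mirror symmetry of the surface with respect to the plane of the first and the third
coordinate, and it interchanges two halves of the surface (the second alternative: `τ` fixes all
the points over the mirror) -/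
def MirrorSym (x : S → V3) (τ : Diffeomorph (𝓡∂ 2) (𝓡∂ 2) S S ∞) : Prop :=
  (∀ p, τ (τ p) = p) ∧ (∀ p, x (τ p) = mir (x p)) ∧
    ((∃ A : Set S, Half τ A) ∨ ∀ p, x p 1 = 0 → τ p = p)

/-- along the boundary the normal stays in a fixed closed half of the normal planes of the
circle -/
def OneSided (x N : S → V3) : Prop :=
  ∃ P Q : ℝ, (P ≠ 0 ∨ Q ≠ 0) ∧
    ∀ p ∈ (𝓡∂ 2).boundary S, 0 ≤ P * (N p ⬝ᵥ x p) + Q * N p 2

/-- the surface is invariant under a nontrivial rotation about the third axis -/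
def RotInv (x : S → V3) : Prop :=
  ∃ (ρ : Diffeomorph (𝓡∂ 2) (𝓡∂ 2) S S ∞) (α : ℝ), Real.cos α ≠ 1 ∧
    ∀ p, x (ρ p) = rot α (x p)

end Pool.Agent.H60.CM
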