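import Pool.Agent.H60.CM.Defs

/-!
# Stable surfaces of constant mean curvature spanning a circle: targets
-/

set_option autoImplicit false

open Set Function MeasureTheory Filter Topology
open scoped Manifold ContDiff Matrix

namespace Pool.Agent.H60.CM

/-! ### pointwise algebra -/

/-- the third coordinate vector -/
def e3 : V3 := ![0, 0, 1]

/-- the first and the second derivatives at a point of a surface of mean curvature `H` -/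
structure Frm (X0 X1 n n0 n1 : V3) (H : ℝ) : Prop where
  imm : X0 ⨯₃ X1 ≠ 0
  unit : n ⬝ᵥ n = 1
  nx0 : n ⬝ᵥ X0 = 0
  nx1 : n ⬝ᵥ X1 = 0
  nn0 : n ⬝ᵥ n0 = 0
  nn1 : n ⬝ᵥ n1 = 0
  sym : X0 ⬝ᵥ n1 = X1 ⬝ᵥ n0
  cmc : n0 ⨯₃ X1 + X0 ⨯₃ n1 = (-2 * H) • (X0 ⨯₃ X1)

/-- (INV) the formulas do not depend on the basis. -/
def T_INV : Prop :=
  ∀ (a0 a1 n : V3) (m00 m01 m10 m11 f0 f1 g0 g1 : ℝ), m00 * m11 - m01 * m10 ≠ 0 →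
    bil (m00 • a0 + m01 • a1) (m10 • a0 + m11 • a1) (m00 * f0 + m01 * f1) (m10 * f0 + m11 * f1)
      (m00 * g0 + m01 * g1) (m10 * g0 + m11 * g1) = bil a0 a1 f0 f1 g0 g1 ∧
    brk (m00 • a0 + m01 • a1) (m10 • a0 + m11 • a1) n (m00 * f0 + m01 * f1)
      (m10 * f0 + m11 * f1) (m00 * g0 + m01 * g1) (m10 * g0 + m11 * g1) =
      brk a0 a1 n f0 f1 g0 g1

/-- (NNG) the gradient vanishes only with the derivatives. -/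
def T_NNG : Prop :=
  ∀ (a0 a1 : V3) (f0 f1 : ℝ), a0 ⨯₃ a1 ≠ 0 →
    0 ≤ bil a0 a1 f0 f1 f0 f1 ∧ (bil a0 a1 f0 f1 f0 f1 = 0 ↔ f0 = 0 ∧ f1 = 0)

/-- (STR) the star operator on the differential of a Killing function. -/
def T_STR : Prop :=
  ∀ (X0 X1 n n0 n1 : V3) (H : ℝ), Frm X0 X1 n n0 n1 H → ∀ (k b : V3) (h0 h1 : ℝ),
    -bil X0 X1 h0 h1 ((b ⨯₃ X0) ⬝ᵥ n + k ⬝ᵥ n0) ((b ⨯₃ X1) ⬝ᵥ n + k ⬝ᵥ n1) =
      ∑ i : Fin 3, (b - (2 * H) • (k ⨯₃ n)) i * brk X0 X1 n h0 h1 (X0 i) (X1 i) +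
      ∑ i : Fin 3, (-(k ⨯₃ n)) i * brk X0 X1 n h0 h1 (n0 i) (n1 i)

/-- (JAC) the Jacobi equation. -/
def T_JAC : Prop :=
  ∀ (X0 X1 n n0 n1 : V3) (H : ℝ), Frm X0 X1 n n0 n1 H → ∀ k b : V3,
    ∑ i : Fin 3, brk X0 X1 n ((-(2 * H) • ((b ⨯₃ X0) ⨯₃ n + k ⨯₃ n0)) i)
        ((-(2 * H) • ((b ⨯₃ X1) ⨯₃ n + k ⨯₃ n1)) i) (X0 i) (X1 i) +
      ∑ i : Fin 3, brk X0 X1 n ((-((b ⨯₃ X0) ⨯₃ n + k ⨯₃ n0)) i)
        ((-((b ⨯₃ X1) ⨯₃ n + k ⨯₃ n1)) i) (n0 i) (n1 i) =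
    (∑ i : Fin 3, bil X0 X1 (n0 i) (n1 i) (n0 i) (n1 i)) * (k ⬝ᵥ n)

/-- (FDZ) the first integral of a surface of revolution is constant. -/
def T_FDZ : Prop :=
  ∀ (X0 X1 n n0 n1 : V3) (H : ℝ), Frm X0 X1 n n0 n1 H → ∀ c : V3,
    (e3 ⨯₃ c) ⬝ᵥ n = 0 → (e3 ⨯₃ X0) ⬝ᵥ n + (e3 ⨯₃ c) ⬝ᵥ n0 = 0 →
    (e3 ⨯₃ X1) ⬝ᵥ n + (e3 ⨯₃ c) ⬝ᵥ n1 = 0 →
    X0 0 * n 0 + c 0 * n0 0 + X0 1 * n 1 + c 1 * n0 1 + 2 * H * (c 0 * X0 0 + c 1 * X0 1) = 0 ∧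
    X1 0 * n 0 + c 0 * n1 0 + X1 1 * n 1 + c 1 * n1 1 + 2 * H * (c 0 * X1 0 + c 1 * X1 1) = 0

/-- (HZR) if the first integral vanishes the horizontal part of `n + H c` vanishes. -/
def T_HZR : Prop :=
  ∀ (X0 X1 n n0 n1 : V3) (H : ℝ), Frm X0 X1 n n0 n1 H → ∀ c : V3,
    (e3 ⨯₃ c) ⬝ᵥ n = 0 → (e3 ⨯₃ X0) ⬝ᵥ n + (e3 ⨯₃ c) ⬝ᵥ n0 = 0 →
    (e3 ⨯₃ X1) ⬝ᵥ n + (e3 ⨯₃ c) ⬝ᵥ n1 = 0 →
    c 0 * n 0 + c 1 * n 1 + H * (c 0 ^ 2 + c 1 ^ 2) = 0 →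
    n 0 + H * c 0 = 0 ∧ n 1 + H * c 1 = 0

/-- (UMB) if the horizontal part of the derivative of `n + H c` vanishes, the derivative
vanishes. -/
def T_UMB : Prop :=
  ∀ (X0 X1 n n0 n1 : V3) (H : ℝ), Frm X0 X1 n n0 n1 H →
    n0 0 + H * X0 0 = 0 → n0 1 + H * X0 1 = 0 → n1 0 + H * X1 0 = 0 → n1 1 + H * X1 1 = 0 →
    n0 + H • X0 = 0 ∧ n1 + H • X1 = 0

/-! ### the data -/

/-- a compact connected surface of constant mean curvature spanning a circle -/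
structure Dat where
  S : Type
  [top : TopologicalSpace S]
  [cht : ChartedSpace (EuclideanHalfSpace 2) S]
  [man : IsManifold (𝓡∂ 2) ∞ S]
  [t2 : T2Space S]
  [cpt : CompactSpace S]
  [cnn : ConnectedSpace S]
  [mea : MeasurableSpace S]
  [bor : BorelSpace S]
  x : S → V3
  N : S → V3
  H : ℝ
  r : ℝ
  μ : Measure S
  [fin : IsFiniteMeasure μ]
  cmc : Cmc x N H r μ

namespace Dat

variable (D : Dat)

instance : TopologicalSpace D.S := D.top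
instance : ChartedSpace (EuclideanHalfSpace 2) D.S := D.cht
instance : IsManifold (𝓡∂ 2) ∞ D.S := D.man
instance : T2Space D.S := D.t2
instance : CompactSpace D.S := D.cpt
instance : ConnectedSpace D.S := D.cnn
instance : MeasurableSpace D.S := D.mea
instance : BorelSpace D.S := D.bor
instance : IsFiniteMeasure D.μ := D.fin

/-- the interior -/
def int : Set D.S := (𝓡∂ 2).interior D.S

/-- the boundary -/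
def bd : Set D.S := (𝓡∂ 2).boundary D.S

/-- smooth functions -/
def Sm {F : Type} [NormedAddCommGroup F] [NormedSpace ℝ F] (f : D.S → F) : Prop :=
  ContMDiff (𝓡∂ 2) 𝓘(ℝ, F) ∞ f

/-- the rotation function -/
def u : D.S → ℝ := kf D.x D.N 0 e3

/-- the first integral -/
def fi (p : D.S) : ℝ :=
  D.x p 0 * D.N p 0 + D.x p 1 * D.N p 1 + D.H * (D.x p 0 ^ 2 + D.x p 1 ^ 2)

/-- parametrizations of open pieces of the interior -/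
structure Pch (O : Set E2) (ψ : E2 → D.S) : Prop where
  isOpen : IsOpen O
  smooth : ContMDiffOn 𝓘(ℝ, E2) (𝓡∂ 2) ∞ ψ O
  inj : InjOn ψ O
  im : ∀ U ⊆ O, IsOpen U → IsOpen (ψ '' U)
  int : ψ '' O ⊆ D.int
  imm : ∀ y ∈ O, pd (D.x ∘ ψ) y 0 ⨯₃ pd (D.x ∘ ψ) y 1 ≠ 0

end Dat

/-- a surface with a mirror symmetry which interchanges two halves -/
structure Sy extends Dat where
  τ : Diffeomorph (𝓡∂ 2) (𝓡∂ 2) S S ∞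
  inv : ∀ p, τ (τ p) = p
  mirr : ∀ p, x (τ p) = mir (x p)
  A : Set S
  half : Half τ A
  conn : IsPreconnected (A ∩ (𝓡∂ 2).interior S)
  pos : ∀ p ∈ (𝓡∂ 2).boundary S, 0 < x p 1 → p ∈ A

/-! ### calculus on the surface -/

/-- (CON) the scalar product of gradients and the bracket are continuous. -/
def T_CON : Prop :=
  ∀ (D : Dat) (f g : D.S → ℝ), D.Sm f → D.Sm g →
    Continuous (gr D.x f g) ∧ Continuous (br D.x D.N f g)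

/-- (PAT) parametrizations near interior points. -/
def T_PAT : Prop :=
  ∀ (D : Dat) (p : D.S) (U : Set D.S), p ∈ D.int → IsOpen U → p ∈ U →
    ∃ (O : Set E2) (ψ : E2 → D.S) (y : E2), D.Pch O ψ ∧ y ∈ O ∧ ψ y = p ∧ ψ '' O ⊆ U

/-- (PDF) derivatives in a parametrization. -/
def T_PDF : Prop :=
  ∀ (D : Dat) (O : Set E2) (ψ : E2 → D.S), D.Pch O ψ → ∀ y ∈ O, ∃ m00 m01 m10 m11 : ℝ,
    m00 * m11 - m01 * m10 ≠ 0 ∧ ∀ (F : Type) [NormedAddCommGroup F] [NormedSpace ℝ F]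
      (f : D.S → F), D.Sm f → ContDiffOn ℝ ∞ (f ∘ ψ) O ∧
      pd (f ∘ ψ) y 0 = m00 • dd f (ψ y) 0 + m01 • dd f (ψ y) 1 ∧
      pd (f ∘ ψ) y 1 = m10 • dd f (ψ y) 0 + m11 • dd f (ψ y) 1

/-- (PGR) scalar products of gradients and brackets in a parametrization. -/
def T_PGR : Prop :=
  ∀ (D : Dat) (O : Set E2) (ψ : E2 → D.S), D.Pch O ψ → ∀ y ∈ O, ∀ f g : D.S → ℝ,
    D.Sm f → D.Sm g →
      gr D.x f g (ψ y) = bil (pd (D.x ∘ ψ) y 0) (pd (D.x ∘ ψ) y 1) (pd (f ∘ ψ) y 0)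
        (pd (f ∘ ψ) y 1) (pd (g ∘ ψ) y 0) (pd (g ∘ ψ) y 1) ∧
      br D.x D.N f g (ψ y) = brk (pd (D.x ∘ ψ) y 0) (pd (D.x ∘ ψ) y 1) (D.N (ψ y))
        (pd (f ∘ ψ) y 0) (pd (f ∘ ψ) y 1) (pd (g ∘ ψ) y 0) (pd (g ∘ ψ) y 1)

/-- (ARE) integrals in a parametrization. -/
def T_ARE : Prop :=
  ∀ (D : Dat) (O : Set E2) (ψ : E2 → D.S), D.Pch O ψ → ∀ F : D.S → ℝ, Measurable F →
    ∫ p in ψ '' O, F p ∂D.μ = ∫ y in O, F (ψ y) * aw (D.x ∘ ψ) y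

/-- (SYM) the second fundamental form is symmetric. -/
def T_SYM : Prop :=
  ∀ (D : Dat), ∀ p ∈ D.int, Frm (dd D.x p 0) (dd D.x p 1) (D.N p) (dd D.N p 0) (dd D.N p 1) D.H

/-- (PFR) the same in a parametrization. -/
def T_PFR : Prop :=
  ∀ (D : Dat) (O : Set E2) (ψ : E2 → D.S), D.Pch O ψ → ∀ y ∈ O,
    Frm (pd (D.x ∘ ψ) y 0) (pd (D.x ∘ ψ) y 1) (D.N (ψ y)) (pd (D.N ∘ ψ) y 0)
      (pd (D.N ∘ ψ) y 1) D.H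

/-- (PB1) the bracket has integral zero (in the plane). -/
def T_PB1 : Prop :=
  ∀ (O K : Set E2) (g b : E2 → ℝ), IsOpen O → IsCompact K → K ⊆ O → ContDiffOn ℝ ∞ g O →
    ContDiffOn ℝ ∞ b O → (∀ y ∈ O, y ∉ K → g y = 0) →
    ∫ y in O, (pd g y 0 * pd b y 1 - pd g y 1 * pd b y 0) = 0

/-- (PB2) the bracket has integral zero (in a parametrization). -/
def T_PB2 : Prop :=
  ∀ (D : Dat) (O : Set E2) (ψ : E2 → D.S), D.Pch O ψ → ∀ g b : D.S → ℝ, Tst (ψ '' O) g →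
    D.Sm b → ∫ p, br D.x D.N g b p ∂D.μ = 0

/-- (PBR) the bracket has integral zero. -/
def T_PBR : Prop :=
  ∀ (D : Dat) (g b : D.S → ℝ), Tst D.int g → D.Sm b → ∫ p, br D.x D.N g b p ∂D.μ = 0

/-- (WJE) the Jacobi equation, in the weak form. -/
def T_WJE : Prop :=
  ∀ (D : Dat) (a b : V3) (η : D.S → ℝ), Tst D.int η →
    ∫ p, gr D.x (kf D.x D.N a b) η p ∂D.μ =
      ∫ p, sf D.x D.N p * kf D.x D.N a b p * η p ∂D.μ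

/-- (POS) open sets have positive area. -/
def T_POS : Prop :=
  ∀ (D : Dat) (F : D.S → ℝ), Continuous F → (∀ p, 0 ≤ F p) → ∫ p, F p ∂D.μ = 0 →
    ∀ p ∈ D.int, F p = 0

/-- (LCS) a function with vanishing derivative is constant. -/
def T_LCS : Prop :=
  ∀ (D : Dat) (f : D.S → ℝ) (B : Set D.S), D.Sm f → IsOpen B → B ⊆ D.int → IsPreconnected B →
    (∀ p ∈ B, ∀ i, dd f p i = 0) → ∀ p ∈ B, ∀ q ∈ B, f p = f q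

/-! ### the boundary -/

/-- (DNI) the interior is dense. -/
def T_DNI : Prop := ∀ D : Dat, Dense D.int

/-- (BCV) boundary curves. -/
def T_BCV : Prop :=
  ∀ (D : Dat), ∀ p ∈ D.bd, ∃ γ : ℝ → D.S, γ 0 = p ∧ (∀ᶠ t in 𝓝 (0 : ℝ), γ t ∈ D.bd) ∧
    ∀ (F : Type) [NormedAddCommGroup F] [NormedSpace ℝ F] (f : D.S → F), D.Sm f →
      HasDerivAt (fun t => f (γ t)) (dd f p 1) 0

/-- (BNZ) the rotation function vanishes on the boundary. -/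
def T_BNZ : Prop :=
  ∀ (D : Dat), ∀ p ∈ D.bd, D.u p = 0 ∧ D.N p 0 * D.r ^ 2 = (D.N p ⬝ᵥ D.x p) * D.x p 0 ∧
    D.N p 1 * D.r ^ 2 = (D.N p ⬝ᵥ D.x p) * D.x p 1 ∧
    (D.N p ⬝ᵥ D.x p) ^ 2 / D.r ^ 2 + D.N p 2 ^ 2 = 1

/-- (BDF) functions which vanish on the boundary. -/
def T_BDF : Prop :=
  ∀ (D : Dat) (d : D.S → ℝ), D.Sm d → (∀ p ∈ D.bd, d p = 0) → ∀ p ∈ D.bd,
    (dd d p 0 ≠ 0 ∨ dd d p 1 ≠ 0) →
    (∀ᶠ q in 𝓝 p, q ∈ D.int → 0 < d q) ∨ (∀ᶠ q in 𝓝 p, q ∈ D.int → d q < 0)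

/-- (BPC) the boundary is connected, and so is its part on one side of the mirror. -/
def T_BPC : Prop :=
  ∀ (D : Dat), D.bd.Nonempty ∧ IsClosed D.bd ∧ IsPreconnected D.bd ∧
    IsPreconnected {p | p ∈ D.bd ∧ 0 < D.x p 1}

/-- (HCR) the half circle lies in one of the halves. -/
def T_HCR : Prop :=
  ∀ (D : Dat) (τ : Diffeomorph (𝓡∂ 2) (𝓡∂ 2) D.S D.S ∞) (A : Set D.S), (∀ p, τ (τ p) = p) →
    (∀ p, D.x (τ p) = mir (D.x p)) → Half τ A →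
    (∀ p ∈ D.bd, 0 < D.x p 1 → p ∈ A) ∨ (∀ p ∈ D.bd, 0 < D.x p 1 → p ∈ τ ⁻¹' A)

/-! ### symmetry -/

/-- (SGN) the normal is compatible with reflections. -/
def T_SGN : Prop :=
  ∀ (D : Dat) (σ : Diffeomorph (𝓡∂ 2) (𝓡∂ 2) D.S D.S ∞) (α : ℝ),
    (∀ p, D.x (σ p) = rot α (mir (D.x p))) → ∀ p, D.N (σ p) = rot α (mir (D.N p))

/-- (TAU) the symmetry preserves the area. -/
def T_TAU : Prop :=
  ∀ (Y : Sy) (F : Y.S → ℝ), Continuous F → tsupport F ⊆ Y.int →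
    ∫ p, F (Y.τ p) ∂Y.μ = ∫ p, F p ∂Y.μ

/-- (TDI) the symmetry preserves the scalar products of gradients. -/
def T_TDI : Prop :=
  ∀ (Y : Sy) (f g : Y.S → ℝ), Y.Sm f → Y.Sm g → ∀ p,
    gr Y.x (fun q => f (Y.τ q)) (fun q => g (Y.τ q)) p = gr Y.x f g (Y.τ p) ∧
    sf Y.x Y.N (Y.τ p) = sf Y.x Y.N p

/-- (STA) stability on a half. -/
def T_STA : Prop :=
  ∀ (Y : Sy), Stable Y.x Y.N Y.μ → ∀ g : Y.S → ℝ, Tst (Y.A ∩ Y.int) g → 0 ≤ QQ Y.x Y.N Y.μ g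

/-- odd Killing functions -/
def oddk (Y : Sy) (c0 c1 c2 : ℝ) : Y.S → ℝ := kf Y.x Y.N ![0, c1, 0] ![c2, 0, c0]

/-- (ODD) they are odd and vanish on the fixed points. -/
def T_ODD : Prop :=
  ∀ (Y : Sy) (c0 c1 c2 : ℝ) (p : Y.S), oddk Y c0 c1 c2 (Y.τ p) = -oddk Y c0 c1 c2 p

/-- (CUT) functions cut off on a half are smooth. -/
def T_CUT : Prop :=
  ∀ (Y : Sy) (f : Y.S → ℝ), Y.Sm f → (∀ p ∈ Y.A ∩ Y.bd, f p ≤ 0) → (∀ p, Y.τ p = p → f p ≤ 0) →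
    ∀ (φ : ℝ → ℝ) (ε : ℝ), ContDiff ℝ ∞ φ → 0 < ε → (∀ t ≤ ε, φ t = 0) →
      Tst (Y.A ∩ Y.int) (Y.A.indicator fun p => φ (f p))

/-! ### Lemma P -/

/-- the properties of the auxiliary function -/
structure Aux (Φ : ℝ → ℝ) : Prop where
  smooth : ContDiff ℝ ∞ Φ
  zero : ∀ t ≤ 1, Φ t = 0
  d0 : ∀ t, 0 ≤ deriv Φ t
  d1 : ∀ t, deriv Φ t ≤ 1
  d2 : ∀ t, 2 ≤ t → deriv Φ t = 1
  dd0 : ∀ t, 0 ≤ deriv (deriv Φ) t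
  lin : ∀ t, |t * deriv Φ t - Φ t| ≤ 2
  nn : ∀ t, 0 ≤ Φ t
  le : ∀ t, Φ t ≤ |t|

/-- (PHI) the auxiliary function. -/
def T_PHI : Prop := ∃ Φ : ℝ → ℝ, Aux Φ

/-- (LPQ) the measure on the zero set is small. -/
def T_LPQ : Prop :=
  ∀ (Y : Sy), Stable Y.x Y.N Y.μ → ∀ (c0 c1 c2 : ℝ), (∀ p ∈ Y.A ∩ Y.bd, oddk Y c0 c1 c2 p ≤ 0) →
    ∀ (Φ : ℝ → ℝ), Aux Φ → ∀ η : Y.S → ℝ, Tst (Y.A ∩ Y.int) η → (∀ p, 0 ≤ η p) →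
    ∃ C : ℝ, ∀ ε : ℝ, 0 < ε → ε ≤ 1 →
      ∫ p in Y.A, deriv (deriv Φ) (oddk Y c0 c1 c2 p / ε) / ε *
        gr Y.x (oddk Y c0 c1 c2) (oddk Y c0 c1 c2) p * η p ∂Y.μ ≤ C * Real.sqrt ε

/-- (LOW) it is not small near a regular zero. -/
def T_LOW : Prop :=
  ∀ (Y : Sy) (f : Y.S → ℝ), Y.Sm f → ∀ q ∈ Y.A ∩ Y.int, f q = 0 → (dd f q 0 ≠ 0 ∨ dd f q 1 ≠ 0) →
    ∀ (Φ : ℝ → ℝ), Aux Φ → ∃ η : Y.S → ℝ, Tst (Y.A ∩ Y.int) η ∧ (∀ p, 0 ≤ η p) ∧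
    ∃ c ε₀ : ℝ, 0 < c ∧ 0 < ε₀ ∧ ∀ ε : ℝ, 0 < ε → ε < ε₀ →
      c ≤ ∫ p in Y.A, deriv (deriv Φ) (f p / ε) / ε * gr Y.x f f p * η p ∂Y.μ

/-- (HES) the second derivative test. -/
def T_HES : Prop :=
  ∀ (g : E2 → ℝ) (y : E2), ContDiffAt ℝ 2 g y → IsLocalMin g y →
    (∀ i, pd g y i = 0) ∧ ∀ a b c : ℝ, 0 < a → 0 < a * c - b ^ 2 →
      0 ≤ a * pd (fun z => pd g z 0) y 0 + 2 * b * pd (fun z => pd g z 1) y 0 +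
        c * pd (fun z => pd g z 1) y 1

/-- the elliptic operator in divergence form -/
noncomputable def Lab (a b c φ : E2 → ℝ) (y : E2) : ℝ :=
  pd (fun z => a z * pd φ z 0 + b z * pd φ z 1) y 0 +
    pd (fun z => b z * pd φ z 0 + c z * pd φ z 1) y 1

/-- the coefficients of an elliptic operator on the open set `O` -/
structure Ell (O : Set E2) (a b c : E2 → ℝ) : Prop where
  isOpen : IsOpen O
  sa : ContDiffOn ℝ ∞ a O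
  sb : ContDiffOn ℝ ∞ b O
  sc : ContDiffOn ℝ ∞ c O
  pa : ∀ y ∈ O, 0 < a y
  det : ∀ y ∈ O, 0 < a y * c y - b y ^ 2

/-- (BAR) the barrier. -/
def T_BAR : Prop :=
  ∀ (O : Set E2) (a b c : E2 → ℝ), Ell O a b c → ∀ (o : E2) (R : ℝ), 0 < R →
    Metric.closedBall o R ⊆ O → ∃ α : ℝ, 0 < α ∧ ∀ y : E2, R / 2 ≤ dist y o → dist y o ≤ R →
      0 < Lab a b c (fun z => Real.exp (-α * dist z o ^ 2)) y

/-- (CMP) the comparison with the barrier. -/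
def T_CMP : Prop :=
  ∀ (O : Set E2) (a b c : E2 → ℝ), Ell O a b c → ∀ (o : E2) (R : ℝ), 0 < R →
    Metric.closedBall o R ⊆ O → ∀ φ w : E2 → ℝ, ContDiffOn ℝ ∞ φ O → ContDiffOn ℝ ∞ w O →
    (∀ y, dist y o = R / 2 → w y ≤ φ y) → (∀ y, dist y o = R → w y ≤ φ y) →
    (∀ y, R / 2 < dist y o → dist y o < R → Lab a b c φ y ≤ 0 ∧ 0 < Lab a b c w y) →
    ∀ y, R / 2 ≤ dist y o → dist y o ≤ R → w y ≤ φ y

/-- (HOP) the Hopf lemma. -/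
def T_HOP : Prop :=
  ∀ (O : Set E2) (a b c : E2 → ℝ), Ell O a b c → ∀ (o : E2) (R : ℝ), 0 < R →
    Metric.closedBall o R ⊆ O → ∀ φ : E2 → ℝ, ContDiffOn ℝ ∞ φ O →
    (∀ y, dist y o < R → 0 < φ y ∧ Lab a b c φ y ≤ 0) → ∀ z : E2, dist z o = R → φ z = 0 →
    pd φ z 0 ≠ 0 ∨ pd φ z 1 ≠ 0

/-- (PDE) the Jacobi equation in a parametrization. -/
def T_PDE : Prop :=
  ∀ (D : Dat) (O : Set E2) (ψ : E2 → D.S), D.Pch O ψ → ∀ a b : V3, ∀ y ∈ O,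
    Lab (fun z => (pd (D.x ∘ ψ) z 1 ⬝ᵥ pd (D.x ∘ ψ) z 1) / aw (D.x ∘ ψ) z)
      (fun z => -(pd (D.x ∘ ψ) z 0 ⬝ᵥ pd (D.x ∘ ψ) z 1) / aw (D.x ∘ ψ) z)
      (fun z => (pd (D.x ∘ ψ) z 0 ⬝ᵥ pd (D.x ∘ ψ) z 0) / aw (D.x ∘ ψ) z)
      (kf D.x D.N a b ∘ ψ) y = -(sf D.x D.N (ψ y) * kf D.x D.N a b (ψ y) * aw (D.x ∘ ψ) y)

/-- (ELL) the coefficients are elliptic. -/
def T_ELL : Prop :=
  ∀ (D : Dat) (O : Set E2) (ψ : E2 → D.S), D.Pch O ψ →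
    Ell O (fun z => (pd (D.x ∘ ψ) z 1 ⬝ᵥ pd (D.x ∘ ψ) z 1) / aw (D.x ∘ ψ) z)
      (fun z => -(pd (D.x ∘ ψ) z 0 ⬝ᵥ pd (D.x ∘ ψ) z 1) / aw (D.x ∘ ψ) z)
      (fun z => (pd (D.x ∘ ψ) z 0 ⬝ᵥ pd (D.x ∘ ψ) z 0) / aw (D.x ∘ ψ) z)

/-- (REG) a Killing function which changes its sign has a regular zero. -/
def T_REG : Prop :=
  ∀ (D : Dat) (a b : V3) (B : Set D.S), IsOpen B → B ⊆ D.int → IsPreconnected B →
    (∃ p ∈ B, 0 < kf D.x D.N a b p) → (∃ p ∈ B, kf D.x D.N a b p ≤ 0) →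
    ∃ q ∈ B, kf D.x D.N a b q = 0 ∧
      (dd (kf D.x D.N a b) q 0 ≠ 0 ∨ dd (kf D.x D.N a b) q 1 ≠ 0)

/-- (LPP) an odd Killing function which is nonpositive on the half circle has a sign on the
half. -/
def T_LPP : Prop :=
  ∀ (Y : Sy), Stable Y.x Y.N Y.μ → ∀ (c0 c1 c2 : ℝ), (∀ p ∈ Y.A ∩ Y.bd, oddk Y c0 c1 c2 p ≤ 0) →
    (∀ p ∈ Y.A ∩ Y.int, 0 < oddk Y c0 c1 c2 p) ∨ (∀ p ∈ Y.A ∩ Y.int, oddk Y c0 c1 c2 p ≤ 0)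

/-! ### the end -/

/-- (BSG) a Killing function with a strict sign somewhere on the half circle. -/
def T_BSG : Prop :=
  ∀ (Y : Sy) (P Q : ℝ), (P ≠ 0 ∨ Q ≠ 0) →
    (∀ p ∈ Y.bd, 0 ≤ P * (Y.N p ⬝ᵥ Y.x p) + Q * Y.N p 2) →
    ∃ c1 c2 : ℝ, (∀ p ∈ Y.A ∩ Y.bd, oddk Y 0 c1 c2 p ≤ 0) ∧ ∃ p ∈ Y.A ∩ Y.bd, oddk Y 0 c1 c2 p < 0

/-- (CS1) the first case: the rotation function vanishes. -/
def T_CS1 : Prop :=
  ∀ (Y : Sy), Stable Y.x Y.N Y.μ → ∀ (P Q : ℝ), (P ≠ 0 ∨ Q ≠ 0) →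
    (∀ p ∈ Y.bd, 0 ≤ P * (Y.N p ⬝ᵥ Y.x p) + Q * Y.N p 2) → ∀ p, Y.u p = 0

/-- (CS2) the second case: the rotation function vanishes. -/
def T_CS2 : Prop :=
  ∀ (Y : Sy), Stable Y.x Y.N Y.μ → ∀ (ρ : Diffeomorph (𝓡∂ 2) (𝓡∂ 2) Y.S Y.S ∞) (α : ℝ),
    Real.cos α ≠ 1 → (∀ p, Y.x (ρ p) = rot α (Y.x p)) → ∀ p, Y.u p = 0

/-- (FIX) the points which are not on the mirror are dense. -/
def T_FIX : Prop :=
  ∀ (D : Dat) (τ : Diffeomorph (𝓡∂ 2) (𝓡∂ 2) D.S D.S ∞) (A : Set D.S), (∀ p, τ (τ p) = p) →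
    (∀ p, D.x (τ p) = mir (D.x p)) → Half τ A → Dense {p | p ∈ D.int ∧ (p ∈ A ∨ τ p ∈ A)}

/-- (FIC) the first integral is constant. -/
def T_FIC : Prop := ∀ (Y : Sy), (∀ p, Y.u p = 0) → ∃ c : ℝ, ∀ p, Y.fi p = c

/-- (FLX) a closed form with nonvanishing period: the surface meets the axis. -/
def T_FLX : Prop :=
  ∀ (D : Dat) (d : D.S → ℝ) (s : ℝ), (∀ p, D.x p 0 ^ 2 + D.x p 1 ^ 2 ≠ 0) → D.Sm d →
    (∀ p ∈ D.bd, d p = 0) → (∀ p ∈ D.bd, dd d p 0 ≠ 0 ∨ dd d p 1 ≠ 0) →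
    (∀ p ∈ D.bd, 0 < s * (-(D.x p 1) * br D.x D.N d (fun q => D.x q 0) p +
      D.x p 0 * br D.x D.N d (fun q => D.x q 1) p)) → False

/-- (FZR) the first integral vanishes. -/
def T_FZR : Prop :=
  ∀ (D : Dat) (c : ℝ), (∀ p, D.u p = 0) → (∀ p, D.fi p = c) → c = 0

/-- (ZCO) the surface is totally umbilic. -/
def T_ZCO : Prop :=
  ∀ (Y : Sy), (∀ p, Y.u p = 0) → (∀ p, Y.fi p = 0) → ∃ z : ℝ, ∀ p, Y.N p + Y.H • Y.x p = ![0, 0, z]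

/-- (END) planes and spheres. -/
def T_END : Prop :=
  ∀ (Y : Sy) (z : ℝ), (∀ p, Y.N p + Y.H • Y.x p = ![0, 0, z]) →
    (Y.H = 0 ∧ ∀ p, Y.x p 2 = 0) ∨
    (Y.H ≠ 0 ∧ ∀ p, Y.x p 0 ^ 2 + Y.x p 1 ^ 2 + (Y.x p 2 - z / Y.H) ^ 2 = (1 / Y.H) ^ 2)

/-! ### halves are connected -/

/-- (ULI) the immersion is locally injective. -/
def T_ULI : Prop := ∀ (D : Dat) (p : D.S), ∃ U : Set D.S, IsOpen U ∧ p ∈ U ∧ InjOn D.x U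

/-- (LC1) small neighbourhoods with connected interior part. -/
def T_LC1 : Prop :=
  ∀ (D : Dat) (p : D.S) (U : Set D.S), IsOpen U → p ∈ U →
    ∃ W : Set D.S, IsOpen W ∧ p ∈ W ∧ W ⊆ U ∧ IsPreconnected (W ∩ D.int)

/-- (LC2) small neighbourhoods of the points of the mirror. -/
def T_LC2 : Prop :=
  ∀ (D : Dat) (τ : Diffeomorph (𝓡∂ 2) (𝓡∂ 2) D.S D.S ∞), (∀ p, τ (τ p) = p) →
    (∀ p, D.x (τ p) = mir (D.x p)) → ∀ (p : D.S) (U : Set D.S), τ p = p → IsOpen U → p ∈ U →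
    ∃ W : Set D.S, IsOpen W ∧ p ∈ W ∧ W ⊆ U ∧
      IsPreconnected {q | q ∈ W ∧ q ∈ D.int ∧ 0 < D.x q 1} ∧
      IsPreconnected {q | q ∈ W ∧ q ∈ D.int ∧ D.x q 1 < 0} ∧ ∀ q ∈ W, D.x q 1 = 0 → τ q = q

/-- (CNN) the interior of a half is connected. -/
def T_CNN : Prop :=
  ∀ (D : Dat) (τ : Diffeomorph (𝓡∂ 2) (𝓡∂ 2) D.S D.S ∞) (A : Set D.S), (∀ p, τ (τ p) = p) →
    (∀ p, D.x (τ p) = mir (D.x p)) → Half τ A → IsPreconnected (A ∩ D.int)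

/-! ### discs and caps -/

/-- the closed domain `K` with boundary curve `C` in the surface `Y` -/
structure Kap (Y K C : Set V3) : Prop where
  cpt : IsCompact K
  sub : C ⊆ K
  subY : K ⊆ Y
  opn : ∃ G : Set V3, IsOpen G ∧ K \ C = G ∩ Y
  sc : SimplyConnectedSpace K
  lpc : LocPathConnectedSpace K
  nb : ∀ y ∈ C, ∀ W : Set V3, IsOpen W → y ∈ W →
    ∃ Q : Set V3, IsOpen Q ∧ y ∈ Q ∧ Q ⊆ W ∧ IsPreconnected ((K \ C) ∩ Q)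

/-- the plane -/
def Ypl : Set V3 := {y | y 2 = 0}

/-- the sphere -/
def Ysp (c ρ : ℝ) : Set V3 := {y | y 0 ^ 2 + y 1 ^ 2 + (y 2 - c) ^ 2 = ρ ^ 2}

/-- the closed disc -/
def Kdi (r : ℝ) : Set V3 := {y | y 2 = 0 ∧ y ⬝ᵥ y ≤ r ^ 2}

/-- the caps -/
def Kca (c ρ σ : ℝ) : Set V3 := {y | y ∈ Ysp c ρ ∧ 0 ≤ σ * y 2}

/-- (UDK) the disc. -/
def T_UDK : Prop := ∀ r : ℝ, 0 < r → Kap Ypl (Kdi r) (circ r)

/-- (UCK) the caps. -/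
def T_UCK : Prop :=
  ∀ r c ρ σ : ℝ, 0 < r → 0 < ρ → ρ ^ 2 = r ^ 2 + c ^ 2 → (σ = 1 ∨ σ = -1) →
    Kap (Ysp c ρ) (Kca c ρ σ) (circ r)

/-- (UIN) the immersion is open at interior points. -/
def T_UIN : Prop :=
  ∀ (D : Dat) (α β γ : ℝ), (∀ p, α * (D.x p ⬝ᵥ D.x p) + β * D.x p 2 + γ = 0) →
    (∀ p, (2 * α) • D.x p + β • e3 ≠ 0) → ∀ q ∈ D.int, ∃ U : Set D.S, IsOpen U ∧ q ∈ U ∧
      InjOn D.x U ∧ ∀ V ⊆ U, IsOpen V →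
        ∃ G : Set V3, IsOpen G ∧ D.x '' V = G ∩ {y | α * (y ⬝ᵥ y) + β * y 2 + γ = 0}

/-- local openness and injectivity -/
def Loc (D : Dat) (Y : Set V3) (q : D.S) : Prop :=
  ∃ U : Set D.S, IsOpen U ∧ q ∈ U ∧ MapsTo D.x U Y ∧ InjOn D.x U ∧
    ∀ V ⊆ U, IsOpen V → ∃ G : Set V3, IsOpen G ∧ D.x '' V = G ∩ Y

/-- (UBD) the immersion is open at boundary points. -/
def T_UBD : Prop :=
  ∀ (D : Dat) (Y K : Set V3), Kap Y K (circ D.r) → (∀ q ∈ D.int, Loc D Y q) →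
    (∀ b ∈ D.bd, ∀ᶠ q in 𝓝 b, q ∈ D.int → D.x q ∈ K \ circ D.r) → ∀ b ∈ D.bd, Loc D K b

/-- (UCV) the covering argument. -/
def T_UCV : Prop :=
  ∀ (D : Dat) (Y K : Set V3), Kap Y K (circ D.r) → (∀ q, D.x q ∈ Y) →
    (∀ q ∈ D.int, Loc D Y q) → (∀ b ∈ D.bd, Loc D K b) → Injective D.x ∧ range D.x = K

/-- (UPL) the planar case. -/
def T_UPL : Prop :=
  ∀ (D : Dat), (∀ p, D.x p 2 = 0) → Injective D.x ∧ range D.x = Kdi D.r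

/-- (USP) the spherical case. -/
def T_USP : Prop :=
  ∀ (D : Dat) (c ρ : ℝ), 0 < ρ → (∀ p, D.x p ∈ Ysp c ρ) →
    Injective D.x ∧ (range D.x = Kca c ρ 1 ∨ range D.x = Kca c ρ (-1))

end Pool.Agent.H60.CM
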